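import Pool.Agent.W78.GR.Basic
import Pool.Agent.W340.GR.Sq

/-!
Project GR (helper78), GR-20: few pairs of determinant one for which `n^2+tn+c` is divisible by the
square of a large prime.
-/

set_option autoImplicit false

namespace Pool.Agent.W340.GR

open Finset Filter
open Pool.Agent.W78.GR

variable {t c : ℤ} {η : (Qd t c)ˣ}

/-- `t^2 - 4 c` as a natural number -/
def dd (t c : ℤ) : ℕ := (t ^ 2 - 4 * c).toNat

theorem dd_pos (hd : 4 * c < t ^ 2) : 0 < dd t c := by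
  unfold dd
  omega

theorem dd_cast (hd : 4 * c < t ^ 2) : (dd t c : ℤ) = t ^ 2 - 4 * c := by
  unfold dd
  omega

/-- `|2 n + t|`, `n = ip e.1 e.2` -/
def yy (e : Qd t c × Qd t c) : ℕ := (2 * ip e.1 e.2 + t).natAbs

theorem four_NN (hd : 4 * c < t ^ 2) {e : Qd t c × Qd t c} (h1 : tp e.1) (h2 : tp e.2)
    (h : dt e.1 e.2 = 1) : yy e ^ 2 = 4 * NN e + dd t c := by
  have h3 := NN_eq hd h1 h2 h
  have h4 : ((yy e ^ 2 : ℕ) : ℤ) = (4 * NN e + dd t c : ℕ) := by
    push_cast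
    rw [dd_cast hd, h3]
    unfold yy
    rw [Int.natCast_natAbs, sq_abs]
    ring
  exact_mod_cast h4

theorem NN_pos (hd : 4 * c < t ^ 2) {e : Qd t c × Qd t c} (h1 : tp e.1) (h2 : tp e.2) :
    0 < NN e := Nat.mul_pos (nm_pos hd h1) (nm_pos hd h2)

/-- few pairs with the same `|2 ip + t|` -/
theorem fibre_card (U : Un t c η) {W : ℕ}
    (hM : ∀ (n : ℤ) (d : ℕ) (S : Finset (Qd t c × Qd t c)),
      (∀ e ∈ S, fd η e.1 ∧ dt e.1 e.2 = 1 ∧ ip e.1 e.2 = n ∧ nm e.1 = d) → S.card ≤ W)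
    (k : ℕ) (T : Finset (Qd t c × Qd t c))
    (hT : ∀ e ∈ T, fd η e.1 ∧ tp e.2 ∧ dt e.1 e.2 = 1 ∧ yy e = k) :
    T.card ≤ 2 * W * (k ^ 2 - dd t c).divisors.card := by
  classical
  rcases T.eq_empty_or_nonempty with he | ⟨e0, he0⟩
  · rw [he]; simp
  have hne : k ^ 2 - dd t c ≠ 0 := by
    obtain ⟨h1, h2, h3, h4⟩ := hT e0 he0
    have h5 := four_NN U.disc h1.1 h2 h3
    have h6 := NN_pos U.disc h1.1 h2
    rw [h4] at h5
    omega
  -- the first norm is a divisor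
  have hdiv : ∀ e ∈ T, nm e.1 ∈ (k ^ 2 - dd t c).divisors := by
    intro e he
    rw [Nat.mem_divisors]
    refine ⟨?_, hne⟩
    obtain ⟨h1, h2, h3, h4⟩ := hT e he
    have h5 := four_NN U.disc h1.1 h2 h3
    rw [h4] at h5
    have h6 : k ^ 2 - dd t c = 4 * NN e := by omega
    rw [h6]
    unfold NN
    exact Dvd.intro (4 * nm e.2) (by ring)
  rw [card_eq_sum_card_fiberwise hdiv]
  have hfib : ∀ d ∈ (k ^ 2 - dd t c).divisors, (T.filter fun e => nm e.1 = d).card ≤ 2 * W := by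
    intro d _
    have hsub : (T.filter fun e => nm e.1 = d) ⊆
        ((T.filter fun e => nm e.1 = d).filter fun e => 2 * ip e.1 e.2 + t = k) ∪
        ((T.filter fun e => nm e.1 = d).filter fun e => 2 * ip e.1 e.2 + t = -k) := by
      intro e he
      rw [mem_union]
      have h2 := (hT e (mem_filter.1 he).1).2.2.2
      unfold yy at h2
      rcases Int.natAbs_eq (2 * ip e.1 e.2 + t) with h | h
      · left; exact mem_filter.2 ⟨he, by rw [h, h2]⟩
      · right; exact mem_filter.2 ⟨he, by rw [h, h2]⟩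
    have key : ∀ s : ℤ, ((T.filter fun e => nm e.1 = d).filter
        fun e => 2 * ip e.1 e.2 + t = s).card ≤ W := by
      intro s
      rcases ((T.filter fun e => nm e.1 = d).filter
        fun e => 2 * ip e.1 e.2 + t = s).eq_empty_or_nonempty with he | ⟨e0, he0⟩
      · rw [he]; simp
      · apply hM (ip e0.1 e0.2) d
        intro e he
        rw [mem_filter, mem_filter] at he he0
        refine ⟨(hT e he.1.1).1, (hT e he.1.1).2.2.1, ?_, he.1.2⟩
        have h1 := he.2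
        have h2 := he0.2
        omega
    have h1 := (card_le_card hsub).trans (card_union_le _ _)
    have h2 := key k
    have h3 := key (-k)
    omega
  calc ∑ d ∈ (k ^ 2 - dd t c).divisors, (T.filter fun e => nm e.1 = d).card
      ≤ ∑ d ∈ (k ^ 2 - dd t c).divisors, 2 * W := sum_le_sum hfib
    _ = 2 * W * (k ^ 2 - dd t c).divisors.card := by rw [sum_const, smul_eq_mul, mul_comm]

open scoped Classical in
/-- the combinatorial bound -/
theorem large_card (U : Un t c η) {W : ℕ}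
    (hM : ∀ (n : ℤ) (d : ℕ) (S : Finset (Qd t c × Qd t c)),
      (∀ e ∈ S, fd η e.1 ∧ dt e.1 e.2 = 1 ∧ ip e.1 e.2 = n ∧ nm e.1 = d) → S.card ≤ W)
    (X : ℝ) (hX : (dd t c : ℝ) ≤ X) (L : ℝ) (hL : 1 ≤ L) (hL2 : (dd t c : ℝ) ≤ L) :
    (((dedge η X).filter (fun e => ∃ l : ℕ, l.Prime ∧ L < (l : ℝ) ∧ l ^ 2 ∣ NN e)).card : ℝ) ≤
      2 * W * ∑ k ∈ PX (dd t c) ⌊L⌋₊ ⌊4 * X⌋₊, (((k ^ 2 - dd t c).divisors.card : ℕ) : ℝ) := by
  set T := (dedge η X).filter (fun e => ∃ l : ℕ, l.Prime ∧ L < (l : ℝ) ∧ l ^ 2 ∣ NN e) with hT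
  have hdd := dd_pos U.disc
  have hddr : (1 : ℝ) ≤ dd t c := by exact_mod_cast hdd
  have hX1 : (1 : ℝ) ≤ X := hddr.trans hX
  have hmap : ∀ e ∈ T, yy e ∈ PX (dd t c) ⌊L⌋₊ ⌊4 * X⌋₊ := by
    intro e he
    rw [hT, mem_filter] at he
    obtain ⟨he, l, hlp, hlL, hld⟩ := he
    rw [U.mem_dedge] at he
    obtain ⟨f1, h1, f2, h2, h3⟩ := he
    have h4 := four_NN U.disc f1.1 f2 h3
    have hN0 := NN_pos U.disc f1.1 f2
    have h4' : yy e ^ 2 - dd t c = 4 * NN e := by omega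
    have hld' : l ^ 2 ∣ yy e ^ 2 - dd t c := by
      rw [h4']
      exact hld.mul_left 4
    have hlD : dd t c < l := by
      have : ((dd t c : ℕ) : ℝ) < (l : ℝ) := by linarith
      exact_mod_cast this
    rw [mem_PX]
    refine ⟨⟨?_, ?_⟩, l, hlp, ?_, hld'⟩
    · -- `dd < yy`
      by_contra h0
      have h0' : yy e ≤ dd t c := by omega
      have h5 : l ^ 2 ≤ yy e ^ 2 - dd t c := Nat.le_of_dvd (by omega) hld'
      have h6 : yy e ^ 2 ≤ dd t c ^ 2 := Nat.pow_le_pow_left h0' 2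
      have h7 : dd t c ^ 2 < l ^ 2 := Nat.pow_lt_pow_left hlD two_ne_zero
      omega
    · apply Nat.le_floor
      have h5 : (NN e : ℝ) ≤ X ^ 2 := by
        unfold NN
        push_cast
        rw [pow_two]
        exact mul_le_mul h1 h2 (Nat.cast_nonneg _) (by linarith)
      have h5' : (yy e : ℝ) ^ 2 = 4 * NN e + dd t c := by exact_mod_cast h4
      have h6 : ((yy e : ℕ) : ℝ) ^ 2 ≤ (4 * X) ^ 2 := by
        nlinarith
      exact (pow_le_pow_iff_left₀ (Nat.cast_nonneg _) (by linarith) two_ne_zero).1 h6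
    · exact (Nat.floor_lt (by linarith)).2 hlL
  have h1 : T.card ≤ ∑ k ∈ PX (dd t c) ⌊L⌋₊ ⌊4 * X⌋₊, 2 * W * (k ^ 2 - dd t c).divisors.card := by
    rw [card_eq_sum_card_fiberwise hmap]
    refine sum_le_sum fun k _ => ?_
    refine fibre_card U hM k _ fun e he => ?_
    rw [mem_filter] at he
    have h2 := he.1
    rw [hT, mem_filter, U.mem_dedge] at h2
    exact ⟨h2.1.1, h2.1.2.2.1, h2.1.2.2.2.2, he.2⟩
  calc (T.card : ℝ) ≤ ((∑ k ∈ PX (dd t c) ⌊L⌋₊ ⌊4 * X⌋₊,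
        2 * W * (k ^ 2 - dd t c).divisors.card : ℕ) : ℝ) := by
        exact_mod_cast h1
    _ = _ := by push_cast; rw [mul_sum]

theorem large_fin (X S l δ K W : ℝ) (hX : 0 < X) (hl : 0 < l) (hδ : 0 < δ) (hK : 0 ≤ K)
    (hW : 0 ≤ W) (h7 : 2 * (2 * W * K) / δ ≤ l) (h5 : S ^ 2 ≤ (K * (2 * X) / l) ^ 2) :
    2 * W * S ≤ δ * X := by
  have h8 : S ≤ K * (2 * X) / l := by
    by_contra hlt
    push Not at hlt
    have : (0 : ℝ) ≤ K * (2 * X) / l := by positivity
    nlinarith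
  have h9 : 2 * (2 * W * K) ≤ δ * l := by
    rw [div_le_iff₀ hδ] at h7
    linarith
  have h10 : 2 * W * (K * (2 * X) / l) ≤ δ * X := by
    rw [← mul_div_assoc, div_le_iff₀ hl]
    nlinarith
  have h11 : 2 * W * S ≤ 2 * W * (K * (2 * X) / l) := mul_le_mul_of_nonneg_left h8 (by linarith)
  linarith

/-- GR-20 -/
theorem large_of (U : Un t c η) : S_MULT t c η → S_LARGE t c η := by
  classical
  intro hM0
  obtain ⟨W, hM⟩ := hM0
  refine ⟨35, fun δ hδ => ?_⟩
  set D := dd t c with hDdef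
  have hdd : 0 < D := dd_pos U.disc
  have hDr : (1 : ℝ) ≤ D := by exact_mod_cast hdd
  -- the constant
  set K2 : ℝ := (48 * D + 1) * (36 * D * 4 ^ 32) with hK2
  have hK20 : 0 ≤ K2 := by positivity
  set K : ℝ := Real.sqrt K2 with hK
  have hK0 : 0 ≤ K := Real.sqrt_nonneg _
  have hKK : K ^ 2 = K2 := Real.sq_sqrt hK20
  have t2 : Tendsto (fun X : ℝ => 2 * X) atTop atTop :=
    Tendsto.const_mul_atTop (by norm_num) tendsto_id
  have h1 : ∀ᶠ X : ℝ in atTop, max (max ((D : ℝ) + 1) (2 * (2 * W * K) / δ)) (2 ^ 34) ≤ Real.log X :=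
    Real.tendsto_log_atTop.eventually_ge_atTop _
  have ev : ∀ᶠ X : ℝ in atTop, (open scoped Classical in
    (((dedge η X).filter (fun e => ∃ l : ℕ, l.Prime ∧ Real.log X ^ 35 < (l : ℝ) ∧
      l ^ 2 ∣ NN e)).card : ℝ)) ≤ δ * X := by
    filter_upwards [h1, t2.eventually (card_PX_ev D hdd), eventually_ge_atTop (16 + (D : ℝ))]
      with X hl hcard hX
    have hX0 : (0 : ℝ) < X := by linarith
    have hX1 : (1 : ℝ) ≤ X := by linarith
    have hl1 : (D : ℝ) + 1 ≤ Real.log X := ((le_max_left _ _).trans (le_max_left _ _)).trans hl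
    have hl1' : 1 ≤ Real.log X := by linarith
    have hl2 : 2 * (2 * W * K) / δ ≤ Real.log X :=
      ((le_max_right _ _).trans (le_max_left _ _)).trans hl
    have hl3 : (2 : ℝ) ^ 34 ≤ Real.log X := (le_max_right _ _).trans hl
    have hℓ0 : 0 < Real.log X := by linarith
    -- the doubled variable
    have hlog2 : Real.log (2 * X) = Real.log 2 + Real.log X := Real.log_mul (by norm_num) hX0.ne'
    have h27 := Real.log_two_gt_d9
    have h27' := Real.log_two_lt_d9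
    have hle2 : Real.log (2 * X) ≤ 2 * Real.log X := by rw [hlog2]; linarith
    have hge2 : Real.log X ≤ Real.log (2 * X) := by rw [hlog2]; linarith
    have hℓ2 : 0 < Real.log (2 * X) := by linarith
    have hpw : Real.log (2 * X) ^ 34 ≤ Real.log X ^ 35 := by
      calc Real.log (2 * X) ^ 34 ≤ (2 * Real.log X) ^ 34 := pow_le_pow_left₀ hℓ2.le hle2 34
        _ = 2 ^ 34 * Real.log X ^ 34 := by rw [mul_pow]
        _ ≤ Real.log X * Real.log X ^ 34 := mul_le_mul_of_nonneg_right hl3 (by positivity)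
        _ = Real.log X ^ 35 := by rw [← pow_succ']
    have hlpow : Real.log X ≤ Real.log (2 * X) ^ 34 :=
      hge2.trans (le_self_pow₀ (hl1'.trans hge2) (by norm_num))
    have hsub : ((dedge η X).filter (fun e => ∃ l : ℕ, l.Prime ∧ Real.log X ^ 35 < (l : ℝ) ∧
        l ^ 2 ∣ NN e)) ⊆ ((dedge η X).filter (fun e => ∃ l : ℕ, l.Prime ∧
        Real.log (2 * X) ^ 34 < (l : ℝ) ∧ l ^ 2 ∣ NN e)) := by
      intro e he
      rw [mem_filter] at he ⊢
      obtain ⟨he, l, a1, a2, a3⟩ := he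
      exact ⟨he, l, a1, hpw.trans_lt a2, a3⟩
    have hc0 : ((((dedge η X).filter (fun e => ∃ l : ℕ, l.Prime ∧ Real.log X ^ 35 < (l : ℝ) ∧
        l ^ 2 ∣ NN e)).card : ℕ) : ℝ) ≤ ((((dedge η X).filter (fun e => ∃ l : ℕ, l.Prime ∧
        Real.log (2 * X) ^ 34 < (l : ℝ) ∧ l ^ 2 ∣ NN e)).card : ℕ) : ℝ) := by
      exact_mod_cast card_le_card hsub
    refine hc0.trans ?_
    refine (large_card U hM X (by rw [← hDdef]; linarith) (Real.log (2 * X) ^ 34)
      (hl1'.trans hlpow) (by rw [← hDdef]; linarith)).trans ?_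
    have e4 : (4 : ℝ) * X = 2 * (2 * X) := by ring
    rw [e4]
    set X' : ℝ := 2 * X with hX'
    have hX'0 : (0 : ℝ) < X' := by positivity
    have hX'1 : (16 : ℝ) + D ≤ X' := by linarith
    have h2 := large_sq D ⌊Real.log X' ^ 34⌋₊ ⌊2 * X'⌋₊ hdd
    have hN : (⌊2 * X'⌋₊ : ℝ) ≤ 2 * X' := Nat.floor_le (by linarith)
    have hN0 : (0 : ℝ) ≤ (⌊2 * X'⌋₊ : ℝ) := Nat.cast_nonneg _
    have hND : ((⌊2 * X'⌋₊ : ℝ) + D) ≤ 3 * X' := by linarith
    have hND1 : (1 : ℝ) ≤ (⌊2 * X'⌋₊ : ℝ) + D := by linarith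
    have hlogX' : 1 ≤ Real.log X' := hl1'.trans hge2
    have hlogN : Real.log ((⌊2 * X'⌋₊ + D : ℕ) : ℝ) ≤ 2 + Real.log X' := by
      push_cast
      have h3 := Real.log_le_log (by linarith) hND
      rw [Real.log_mul (by norm_num) hX'0.ne'] at h3
      have h4 : Real.log 3 ≤ 2 := by
        have := Real.log_le_sub_one_of_pos (show (0 : ℝ) < 3 by norm_num)
        linarith
      linarith
    have hlogN0 : 0 ≤ Real.log ((⌊2 * X'⌋₊ + D : ℕ) : ℝ) := by
      push_cast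
      exact Real.log_nonneg hND1
    have h3 : (1 + Real.log ((⌊2 * X'⌋₊ + D : ℕ) : ℝ)) ^ 32 ≤ (4 * Real.log X') ^ 32 :=
      pow_le_pow_left₀ (by linarith) (by linarith) 32
    have h4 : 12 * (D : ℝ) * ((⌊2 * X'⌋₊ : ℝ) + D) * (1 + Real.log ((⌊2 * X'⌋₊ + D : ℕ) : ℝ)) ^ 32 ≤
        12 * D * (3 * X') * (4 * Real.log X') ^ 32 :=
      mul_le_mul (mul_le_mul_of_nonneg_left hND (by positivity)) h3 (by positivity) (by positivity)
    have h5 := h2.trans (mul_le_mul hcard h4 (by positivity) (by positivity))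
    have h6 : (48 * (D : ℝ) + 1) * (X' / Real.log X' ^ 34) *
        (12 * D * (3 * X') * (4 * Real.log X') ^ 32) = (K * X' / Real.log X') ^ 2 := by
      rw [div_pow, mul_pow K X', hKK, hK2, mul_pow]
      field_simp
      ring
    rw [h6] at h5
    exact large_fin X _ (Real.log X') δ K W hX0 hℓ2 hδ hK0 (Nat.cast_nonneg _)
      (hl2.trans hge2) h5
  exact eventually_atTop.1 ev

end Pool.Agent.W340.GR
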